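import Pool.Agent.Helper579.CayInf.Defs
import Pool.Agent.Helper579.CayInf.P_classification

/-! # MP_a61cf6_co: classification of the avoidable complete bipartite graphs

For all nonempty `S`, `T` (finite or infinite) with `|S| ≤ |T|`: the complete bipartite graph
`K_{S,T}` is avoidable iff `|S| ≥ 3` and `|T| ≥ 5`.
-/

universe u

namespace Pool.Agent.Results.MP_a61cf6_co.BipartiteAll

open CayInf

/-- `Y` is avoidable: every group has a generating set `H`, `1 ∉ H`, such that the Cayley graph
`X(G,H)` does not contain `Y` as a subgraph. -/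
def Avoidable {W : Type u} (Y : SimpleGraph W) : Prop :=
  ∀ (G : Type u) [Group G], ∃ H : Set G, (1 : G) ∉ H ∧ Subgroup.closure H = ⊤ ∧
    ¬ Y.IsContained (cay G H)

theorem result (S T : Type u) [Nonempty S] (hST : Cardinal.mk S ≤ Cardinal.mk T) :
    Avoidable (completeBipartiteGraph S T) ↔ (3 ≤ Cardinal.mk S ∧ 5 ≤ Cardinal.mk T) :=
  classification S T hST

end Pool.Agent.Results.MP_a61cf6_co.BipartiteAll
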