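import Pool.Agent.Helper579.Cayley.Defs
import Pool.Agent.Helper579.Cayley.P_exists_good
import Pool.Agent.Helper579.Cayley.P_q8
import Pool.Agent.Helper579.Cayley.P_star

/-! # MP_a61cf6_co: complete bipartite graphs in Cayley graphs of finite groups

For `1 ≤ s ≤ t`: every finite group has a Cayley graph without a `K_{s,t}` iff `2 ≤ s` and `5 ≤ t`.
-/

namespace Pool.Agent.Results.MP_a61cf6_co.BipartiteFinite

open CayK25

theorem k_mono {s t s' t' : ℕ} (hs : s ≤ s') (ht : t ≤ t') :
    (completeBipartiteGraph (Fin s) (Fin t)).IsContained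
      (completeBipartiteGraph (Fin s') (Fin t')) := by
  refine ⟨⟨⟨Sum.map (Fin.castLE hs) (Fin.castLE ht), ?_⟩, ?_⟩⟩
  · intro a b hab
    rcases a with a | a <;> rcases b with b | b <;> simp_all [completeBipartiteGraph]
  · exact Sum.map_injective.2 ⟨Fin.castLE_injective hs, Fin.castLE_injective ht⟩

theorem result (s t : ℕ) (hs : 1 ≤ s) (hst : s ≤ t) :
    (∀ (G : Type) [Group G] [Finite G], ∃ H : Set G, (1 : G) ∉ H ∧ Subgroup.closure H = ⊤ ∧
      ¬ (completeBipartiteGraph (Fin s) (Fin t)).IsContained (cay G H)) ↔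
    (2 ≤ s ∧ 5 ≤ t) := by
  constructor
  · intro h
    by_contra hcon
    by_cases h2 : 2 ≤ s
    · have h5 : t ≤ 4 := by
        by_contra h5
        exact hcon ⟨h2, by omega⟩
      obtain ⟨H, h1, hH, hno⟩ := h (QuaternionGroup 2)
      exact hno ((k_mono (hst.trans h5) h5).trans (q8 H h1 hH))
    · have hs1 : s ≤ 1 := by omega
      obtain ⟨H, h1, hH, hno⟩ := h (Multiplicative (Fin t → ZMod 2))
      exact hno ((k_mono hs1 le_rfl).trans (star t H h1 hH))
  · rintro ⟨h2, h5⟩ G _ _
    obtain ⟨H, h1, hH, hno⟩ := exists_good G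
    exact ⟨H, h1, hH, fun hc => hno ((k_mono h2 h5).trans hc)⟩

end Pool.Agent.Results.MP_a61cf6_co.BipartiteFinite
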