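import Mathlib

set_option autoImplicit false

namespace Pool.Agent.Results.MP_a61cf6_co.CompleteBipartite

universe u

/-- The Cayley graph `X(G,H)`: `g` and `g'` are adjacent iff they are distinct and `g' = h g` or
`g = h g'` for some `h ∈ H`. -/
def cay {G : Type u} [Group G] (H : Set G) : SimpleGraph G where
  Adj g g' := g ≠ g' ∧ ((∃ h ∈ H, g' = h * g) ∨ ∃ h ∈ H, g = h * g')
  symm := ⟨fun _ _ h => ⟨h.1.symm, h.2.symm⟩⟩
  loopless := ⟨fun _ h => h.1 rfl⟩

/-- `Y` is avoidable: every group `G` has a generating set `H`, `1 ∉ H`, such that no subgraph of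
the Cayley graph `X(G,H)` is isomorphic to `Y`. -/
def Avoidable {V : Type} (Y : SimpleGraph V) : Prop :=
  ∀ (G : Type u) [Group G], ∃ H : Set G, Subgroup.closure H = ⊤ ∧ 1 ∉ H ∧
    ¬ ∃ f : V → G, Function.Injective f ∧ ∀ x y, Y.Adj x y → (cay H).Adj (f x) (f y)

/-- `Y` has no 2-cut: for every partition of the vertex set into two nonempty parts `A`, `Aᶜ` some
vertex has at least three neighbours in the other part. -/
def NoTwoCut {V : Type} (Y : SimpleGraph V) : Prop :=
  ∀ A : Set V, A.Nonempty → Aᶜ.Nonempty → ∃ v, 3 ≤ {w | Y.Adj v w ∧ (v ∈ A ↔ w ∉ A)}.ncard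

theorem avoidable_of_noTwoCut {V : Type} [Finite V] [Nontrivial V] (Y : SimpleGraph V)
    (hY : NoTwoCut Y) : Avoidable.{u} Y := by
  intro G _
  obtain ⟨_, _⟩ := exists_wellFoundedLT G
  let H : Set G := {g | g ∉ Subgroup.closure {x | x < g}}
  have hgen : ∀ g : G, g ∈ Subgroup.closure H := by
    intro g
    induction g using WellFoundedLT.induction with
    | ind g ih =>
      by_cases h : g ∈ H
      · exact Subgroup.subset_closure h
      · have h1 : g ∈ Subgroup.closure {x | x < g} := by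
          by_contra h2; exact h h2
        exact (Subgroup.closure_le _).2 (fun x hx => ih x hx) h1
  refine ⟨H, by rw [eq_top_iff]; intro g _; exact hgen g, fun h => h (Subgroup.one_mem _), ?_⟩
  rintro ⟨f, hf, hadj⟩
  let S : Set G := {h | h ∈ H ∧ ∃ x y, Y.Adj x y ∧ f y = h * f x}
  have hfin : S.Finite := by
    refine Set.Finite.subset (Set.finite_range (fun p : V × V => f p.2 * (f p.1)⁻¹)) ?_
    rintro h ⟨_, x, y, _, h2⟩
    exact ⟨(x, y), by simp [h2]⟩
  -- an edge
  have hedge : ∃ x y, Y.Adj x y := by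
    obtain ⟨a, b, hab⟩ := exists_pair_ne V
    obtain ⟨v, hv⟩ := hY {a} ⟨a, rfl⟩ ⟨b, fun h => hab h.symm⟩
    have : ({w | Y.Adj v w ∧ (v ∈ ({a} : Set V) ↔ w ∉ ({a} : Set V))} : Set V).Nonempty := by
      apply Set.nonempty_of_ncard_ne_zero
      omega
    obtain ⟨w, hw, _⟩ := this
    exact ⟨v, w, hw⟩
  have hS : S.Nonempty := by
    obtain ⟨x, y, hxy⟩ := hedge
    rcases (hadj x y hxy).2 with ⟨h, hh, e⟩ | ⟨h, hh, e⟩
    · exact ⟨h, hh, x, y, hxy, e⟩
    · exact ⟨h, hh, y, x, hxy.symm, e⟩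
  obtain ⟨μ, ⟨hμH, x₀, y₀, _, hxy₀⟩, hmax⟩ := hfin.exists_maximal hS
  have hle : ∀ h ∈ S, h ≤ μ := by
    intro h hh
    by_contra hlt
    exact hlt (hmax hh (le_of_lt (not_le.1 hlt)))
  let K := Subgroup.closure {x : G | x < μ}
  have hμK : μ ∉ K := hμH
  let A : Set V := {v | f v * (f x₀)⁻¹ ∈ K}
  have hx₀ : x₀ ∈ A := by
    show f x₀ * (f x₀)⁻¹ ∈ K
    rw [mul_inv_cancel]; exact K.one_mem
  have hy₀ : y₀ ∉ A := by
    show ¬ (f y₀ * (f x₀)⁻¹ ∈ K)
    rw [hxy₀, mul_inv_cancel_right]; exact hμK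
  obtain ⟨v, hv⟩ := hY A ⟨x₀, hx₀⟩ ⟨y₀, hy₀⟩
  have key : {w | Y.Adj v w ∧ (v ∈ A ↔ w ∉ A)} ⊆ f ⁻¹' {μ * f v, μ⁻¹ * f v} := by
    rintro w ⟨hvw, hA⟩
    have hnot : f w * (f v)⁻¹ ∉ K := by
      intro hk
      have h1 : v ∈ A ↔ w ∈ A := by
        constructor
        · intro hvA
          show f w * (f x₀)⁻¹ ∈ K
          have := K.mul_mem hk hvA
          simpa [mul_assoc] using this
        · intro hwA
          show f v * (f x₀)⁻¹ ∈ K
          have := K.mul_mem (K.inv_mem hk) hwA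
          simpa [mul_assoc] using this
      tauto
    rcases (hadj v w hvw).2 with ⟨h, hh, e⟩ | ⟨h, hh, e⟩
    · have h1 : h ≤ μ := hle h ⟨hh, v, w, hvw, e⟩
      rcases lt_or_eq_of_le h1 with h2 | h2
      · exfalso
        apply hnot
        rw [e, mul_inv_cancel_right]
        exact Subgroup.subset_closure h2
      · left
        rw [e, h2]
    · have h1 : h ≤ μ := hle h ⟨hh, w, v, hvw.symm, e⟩
      rcases lt_or_eq_of_le h1 with h2 | h2
      · exfalso
        apply hnot
        rw [e, mul_inv_rev, mul_inv_cancel_left]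
        exact K.inv_mem (Subgroup.subset_closure h2)
      · right
        show f w = μ⁻¹ * f v
        rw [e, h2]; group
  have hcard : ({w | Y.Adj v w ∧ (v ∈ A ↔ w ∉ A)} : Set V).ncard ≤ 2 := by
    calc ({w | Y.Adj v w ∧ (v ∈ A ↔ w ∉ A)} : Set V).ncard
        ≤ (f ⁻¹' {μ * f v, μ⁻¹ * f v}).ncard := Set.ncard_le_ncard key (Set.toFinite _)
      _ ≤ ({μ * f v, μ⁻¹ * f v} : Set G).ncard := by
          rw [← Set.ncard_image_of_injective _ hf]
          exact Set.ncard_le_ncard (Set.image_preimage_subset _ _) (Set.toFinite _)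
      _ ≤ 2 := (Set.ncard_insert_le _ _).trans (by rw [Set.ncard_singleton])
  omega

theorem noTwoCut_K (s t : ℕ) (hs : 3 ≤ s) (ht : 5 ≤ t) :
    NoTwoCut (completeBipartiteGraph (Fin s) (Fin t)) := by
  intro A hA hAc
  have hR : ({j : Fin t | Sum.inr j ∈ A}).ncard + ({j : Fin t | Sum.inr j ∈ A}ᶜ).ncard = t := by
    rw [Set.ncard_add_ncard_compl]; simp
  have main : ∀ A : Set (Fin s ⊕ Fin t), Aᶜ.Nonempty →
      3 ≤ ({j : Fin t | Sum.inr j ∈ A}).ncard →
      ∃ v, 3 ≤ {w | (completeBipartiteGraph (Fin s) (Fin t)).Adj v w ∧ (v ∈ A ↔ w ∉ A)}.ncard := by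
    intro A hAc h3
    by_cases h : ∃ i : Fin s, Sum.inl i ∉ A
    · obtain ⟨i, hi⟩ := h
      refine ⟨Sum.inl i, h3.trans ?_⟩
      rw [← Set.ncard_image_of_injective {j : Fin t | Sum.inr j ∈ A}
        (Sum.inr_injective (α := Fin s))]
      apply Set.ncard_le_ncard _ (Set.toFinite _)
      rintro _ ⟨j, hj, rfl⟩
      refine ⟨by simp [completeBipartiteGraph], ?_⟩
      simp only [Set.mem_ofPred_eq] at hj
      tauto
    · push Not at h
      obtain ⟨w, hw⟩ := hAc
      rcases w with i | j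
      · exact absurd (h i) hw
      · refine ⟨Sum.inr j, ?_⟩
        calc 3 ≤ (Set.univ : Set (Fin s)).ncard := by simpa using hs
          _ = (Sum.inl '' (Set.univ : Set (Fin s)) : Set (Fin s ⊕ Fin t)).ncard :=
              (Set.ncard_image_of_injective _ Sum.inl_injective).symm
          _ ≤ _ := by
              apply Set.ncard_le_ncard _ (Set.toFinite _)
              rintro _ ⟨i, -, rfl⟩
              refine ⟨by simp [completeBipartiteGraph], ?_⟩
              have := h i
              have hw' : Sum.inr j ∉ A := hw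
              tauto
  have h35 : 3 ≤ ({j : Fin t | Sum.inr j ∈ A}).ncard ∨ 3 ≤ ({j : Fin t | Sum.inr j ∈ A}ᶜ).ncard := by
    omega
  rcases h35 with h | h
  · exact main A hAc h
  · obtain ⟨v, hv⟩ := main Aᶜ (by rwa [compl_compl]) h
    refine ⟨v, hv.trans (le_of_eq ?_)⟩
    congr 1
    ext w
    simp only [Set.mem_compl_iff, Set.mem_ofPred_eq]
    tauto

theorem mono {V W : Type} {Y : SimpleGraph V} {Z : SimpleGraph W} (φ : V → W)
    (hφ : Function.Injective φ) (h : ∀ x y, Y.Adj x y → Z.Adj (φ x) (φ y))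
    (hY : Avoidable.{u} Y) : Avoidable.{u} Z := by
  intro G _
  obtain ⟨H, h1, h2, h3⟩ := hY G
  refine ⟨H, h1, h2, ?_⟩
  rintro ⟨f, hf, hadj⟩
  exact h3 ⟨f ∘ φ, hf.comp hφ, fun x y hxy => hadj _ _ (h x y hxy)⟩


/-- the quaternion group of order 8 -/
abbrev Q8 : Type := QuaternionGroup 2

open QuaternionGroup

/-- the first part of the bipartition of the Cayley graph of `Q8` for the pair of classes `k` -/
def lft : Fin 3 → Fin 4 → Q8
  | 0 => ![a 0, a 2, xa 1, xa 3]
  | 1 => ![a 0, a 2, xa 0, xa 2]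
  | 2 => ![a 0, a 2, a 1, a 3]

/-- the second part -/
def rgt : Fin 3 → Fin 4 → Q8
  | 0 => ![a 1, a 3, xa 0, xa 2]
  | 1 => ![a 1, a 3, xa 1, xa 3]
  | 2 => ![xa 0, xa 2, xa 1, xa 3]

theorem lft_inj : ∀ k i j, lft k i = lft k j → i = j := by decide
theorem rgt_inj : ∀ k i j, rgt k i = rgt k j → i = j := by decide
theorem lft_ne_rgt : ∀ k i j, lft k i ≠ rgt k j := by decide
theorem adj_mem : ∀ k i j, ∃ l, rgt k j * (lft k i)⁻¹ = rgt k l := by decide

/-- the class of an element of `Q8`: centre, `±i`, `±j`, `±k` -/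
def cls : Q8 → Fin 4
  | a i => if i = 0 ∨ i = 2 then 0 else 1
  | xa i => if i = 0 ∨ i = 2 then 2 else 3

theorem cls_same : ∀ g y : Q8, cls g = cls y → cls g ≠ 0 → y = g ∨ y⁻¹ = g := by decide
theorem cls_mul : ∀ (j : Fin 4) (g h : Q8), (cls g = 0 ∨ cls g = j) → (cls h = 0 ∨ cls h = j) →
    (cls (g * h) = 0 ∨ cls (g * h) = j) := by decide
theorem cls_inv : ∀ (j : Fin 4) (g : Q8), (cls g = 0 ∨ cls g = j) →
    (cls g⁻¹ = 0 ∨ cls g⁻¹ = j) := by decide
theorem cls_out : ∀ j : Fin 4, ∃ g : Q8, ¬ (cls g = 0 ∨ cls g = j) := by decide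

/-- the subgroup formed by the centre and one class -/
def M (j : Fin 4) : Subgroup Q8 where
  carrier := {g | cls g = 0 ∨ cls g = j}
  mul_mem' := fun {g h} hg hh => cls_mul j g h hg hh
  one_mem' := Or.inl (by decide)
  inv_mem' := fun {g} hg => cls_inv j g hg

theorem exists_pair (H : Set Q8) (hH : Subgroup.closure H = ⊤) :
    ∃ k : Fin 3, ∀ l, rgt k l ∈ H ∨ (rgt k l)⁻¹ ∈ H := by
  have hM : ∀ j : Fin 4, ∃ g ∈ H, cls g ≠ 0 ∧ cls g ≠ j := by
    intro j
    by_contra hcon
    push Not at hcon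
    have h1 : Subgroup.closure H ≤ M j := by
      rw [Subgroup.closure_le]
      intro g hg
      by_cases h0 : cls g = 0
      · exact Or.inl h0
      · exact Or.inr (hcon g hg h0)
    obtain ⟨g, hg⟩ := cls_out j
    apply hg
    rw [hH] at h1
    exact h1 (Subgroup.mem_top g)
  have hit : ∀ j : Fin 4, (∃ g ∈ H, cls g = j) → j ≠ 0 → ∀ y, cls y = j → y ∈ H ∨ y⁻¹ ∈ H := by
    rintro j ⟨g, hg, hgj⟩ hj y hy
    rcases cls_same g y (hgj.trans hy.symm) (by rw [hgj]; exact hj) with h | h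
    · left; rw [h]; exact hg
    · right; rw [h]; exact hg
  obtain ⟨g₀, hg₀, h00, -⟩ := hM 0
  obtain ⟨g₁, hg₁, h10, h11⟩ := hM (cls g₀)
  have hit0 := hit (cls g₀) ⟨g₀, hg₀, rfl⟩ h00
  have hit1 := hit (cls g₁) ⟨g₁, hg₁, rfl⟩ h10
  have hk : ∀ p q : Fin 4, p ≠ 0 → q ≠ 0 → q ≠ p →
      ∃ k : Fin 3, ∀ l, cls (rgt k l) = p ∨ cls (rgt k l) = q := by decide
  obtain ⟨k, hk⟩ := hk _ _ h00 h10 h11
  refine ⟨k, fun l => ?_⟩
  rcases hk l with h | h
  · exact hit0 _ h
  · exact hit1 _ h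

/-- every Cayley graph of the quaternion group contains `K_{4,4}` -/
theorem not_avoidable_K44 : ¬ Avoidable.{u} (completeBipartiteGraph (Fin 4) (Fin 4)) := by
  intro hav
  obtain ⟨H, hH, -, hno⟩ := hav (ULift.{u} Q8)
  let e : ULift.{u} Q8 ≃* Q8 := MulEquiv.ulift
  obtain ⟨k, hk⟩ := exists_pair (e '' H) (by
    have := MonoidHom.map_closure e.toMonoidHom H
    rw [hH] at this
    rw [← Subgroup.map_top_of_surjective e.toMonoidHom e.surjective]
    exact this.symm)
  apply hno
  let f : Fin 4 ⊕ Fin 4 → ULift.{u} Q8 :=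
    Sum.elim (fun i => e.symm (lft k i)) (fun j => e.symm (rgt k j))
  have key : ∀ i j, (cay H).Adj (e.symm (lft k i)) (e.symm (rgt k j)) := by
    intro i j
    refine ⟨fun h => lft_ne_rgt k i j (e.symm.injective h), ?_⟩
    obtain ⟨l, hl⟩ := adj_mem k i j
    rcases hk l with h | h
    · obtain ⟨g, hg, hge⟩ := h
      left
      refine ⟨g, hg, ?_⟩
      apply e.injective
      rw [map_mul, MulEquiv.apply_symm_apply, MulEquiv.apply_symm_apply]
      rw [hge, ← hl, inv_mul_cancel_right]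
    · obtain ⟨g, hg, hge⟩ := h
      right
      refine ⟨g, hg, ?_⟩
      apply e.injective
      rw [map_mul, MulEquiv.apply_symm_apply, MulEquiv.apply_symm_apply]
      rw [hge, ← hl]
      group
  refine ⟨f, ?_, ?_⟩
  · rintro (i | i) (j | j) h
    · exact congrArg Sum.inl (lft_inj k i j (e.symm.injective h))
    · exact absurd (e.symm.injective h) (lft_ne_rgt k i j)
    · exact absurd (e.symm.injective h).symm (lft_ne_rgt k j i)
    · exact congrArg Sum.inr (rgt_inj k i j (e.symm.injective h))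
  · rintro (i | i) (j | j) h
    · simp [completeBipartiteGraph] at h
    · exact key i j
    · exact (key j i).symm
    · simp [completeBipartiteGraph] at h

/-- stars are unavoidable: every generating set of `(Z/2)^t` has at least `t` elements -/
theorem not_avoidable_star (t : ℕ) :
    ¬ Avoidable.{u} (completeBipartiteGraph (Fin 1) (Fin t)) := by
  intro hav
  obtain ⟨H, hH, h1, hno⟩ := hav (ULift.{u} (Multiplicative (Fin t → ZMod 2)))
  let e : ULift.{u} (Multiplicative (Fin t → ZMod 2)) ≃* Multiplicative (Fin t → ZMod 2) :=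
    MulEquiv.ulift
  let τ : ULift.{u} (Multiplicative (Fin t → ZMod 2)) → (Fin t → ZMod 2) :=
    fun g => Multiplicative.toAdd (e g)
  let S : Submodule (ZMod 2) (Fin t → ZMod 2) := Submodule.span (ZMod 2) (τ '' H)
  let P : Subgroup (ULift.{u} (Multiplicative (Fin t → ZMod 2))) :=
    { carrier := {g | τ g ∈ S}
      mul_mem' := fun {g h} hg hh => by
        have : τ (g * h) = τ g + τ h := by simp only [τ, map_mul, toAdd_mul]
        show τ (g * h) ∈ S
        rw [this]; exact S.add_mem hg hh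
      one_mem' := by
        have : τ 1 = 0 := by simp only [τ, map_one, toAdd_one]
        show τ 1 ∈ S
        rw [this]; exact S.zero_mem
      inv_mem' := fun {g} hg => by
        have : τ g⁻¹ = - τ g := by simp only [τ, map_inv, toAdd_inv]
        show τ g⁻¹ ∈ S
        rw [this]; exact S.neg_mem hg }
  have hP : Subgroup.closure H ≤ P := by
    rw [Subgroup.closure_le]
    intro g hg
    exact Submodule.subset_span ⟨g, hg, rfl⟩
  have hS : S = ⊤ := by
    rw [eq_top_iff]
    intro x _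
    have h2 : e.symm (Multiplicative.ofAdd x) ∈ P := hP (by rw [hH]; exact Subgroup.mem_top _)
    have h3 : τ (e.symm (Multiplicative.ofAdd x)) = x := by
      simp only [τ, MulEquiv.apply_symm_apply, toAdd_ofAdd]
    have h4 : τ (e.symm (Multiplicative.ofAdd x)) ∈ S := h2
    rwa [h3] at h4
  haveI : Fintype H := Fintype.ofFinite H
  haveI : Fintype (τ '' H) := Fintype.ofFinite _
  have hcard : t ≤ Fintype.card H := by
    have h2 : Module.finrank (ZMod 2) S ≤ (τ '' H).toFinset.card := finrank_span_le_card (τ '' H)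
    rw [hS, finrank_top, Module.finrank_fintype_fun_eq_card, Fintype.card_fin,
      Set.toFinset_card] at h2
    refine h2.trans ?_
    have := Fintype.card_le_of_surjective (fun x : H => (⟨τ x, x, x.2, rfl⟩ : (τ '' H)))
      (by rintro ⟨_, x, hx, rfl⟩; exact ⟨⟨x, hx⟩, rfl⟩)
    exact this
  obtain ⟨ι⟩ := Function.Embedding.nonempty_of_card_le (α := Fin t) (β := H) (by simpa using hcard)
  have h1' : ∀ j, (ι j : ULift.{u} (Multiplicative (Fin t → ZMod 2))) ≠ 1 :=
    fun j h => h1 (h ▸ (ι j).2)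
  have key : ∀ (i : Fin 1) (j : Fin t), (cay H).Adj 1 (ι j : ULift.{u} _) :=
    fun i j => ⟨(h1' j).symm, Or.inl ⟨ι j, (ι j).2, (mul_one _).symm⟩⟩
  refine hno ⟨Sum.elim (fun _ => 1) (fun j => (ι j : ULift.{u} _)), ?_, ?_⟩
  · rintro (i | i) (j | j) h
    · rw [Subsingleton.elim i j]
    · exact absurd h.symm (h1' j)
    · exact absurd h (h1' i)
    · exact congrArg Sum.inr (ι.injective (Subtype.ext h))
  · rintro (i | i) (j | j) h
    · simp [completeBipartiteGraph] at h
    · exact key i j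
    · exact (key j i).symm
    · simp [completeBipartiteGraph] at h

/-- Every nontrivial finite graph without a 2-cut is avoidable; a complete bipartite graph
`K_{s,t}` with `1 ≤ s ≤ t` that is not one of the graphs `K_{2,t}`, `t ≥ 5`, is avoidable if and
only if `s ≥ 3` and `t ≥ 5`. -/
theorem result :
    (∀ (V : Type) [Finite V] [Nontrivial V] (Y : SimpleGraph V), NoTwoCut Y → Avoidable.{u} Y) ∧
      ∀ s t : ℕ, 1 ≤ s → s ≤ t → (s = 2 → t ≤ 4) →
        (Avoidable.{u} (completeBipartiteGraph (Fin s) (Fin t)) ↔ 3 ≤ s ∧ 5 ≤ t) := by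
  have h44 : ∀ s t : ℕ, s ≤ 4 → t ≤ 4 →
      ¬ Avoidable.{u} (completeBipartiteGraph (Fin s) (Fin t)) := by
    intro s t hs ht hav
    refine not_avoidable_K44 (mono (Sum.map (Fin.castLE hs) (Fin.castLE ht)) ?_ ?_ hav)
    · exact Function.Injective.sumMap (Fin.castLE_injective hs) (Fin.castLE_injective ht)
    · rintro (i | i) (j | j) h <;> simp [completeBipartiteGraph] at h ⊢
  refine ⟨fun V _ _ Y hY => avoidable_of_noTwoCut Y hY, ?_⟩
  intro s t hs hst h2
  constructor
  · intro hav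
    by_contra hcon
    rcases Nat.lt_or_ge t 5 with ht | ht
    · exact h44 s t (by omega) (by omega) hav
    · have : s = 1 := by omega
      subst this
      exact not_avoidable_star t hav
  · rintro ⟨hs3, ht5⟩
    have : Nontrivial (Fin s ⊕ Fin t) :=
      ⟨⟨Sum.inl ⟨0, by omega⟩, Sum.inr ⟨0, by omega⟩, by simp⟩⟩
    exact avoidable_of_noTwoCut _ (noTwoCut_K s t hs3 ht5)

end Pool.Agent.Results.MP_a61cf6_co.CompleteBipartite
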